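import Mathlib
import Pool.Graph.R_seed8.Results.MP_a2efaf_al.IntervalCompletion
import Pool.Agent.KS6_36.IvlDefect.Main

set_option autoImplicit false

namespace Pool.Agent.Results.MP_a2efaf_al.WidthOnly

open Pool.Agent.Results.MP_a2efaf_al.IntervalCompletion

/-- Let `Γ` be a numerical semigroup with minimal generators `g 0 < ... < g e` and width
`w = g e - g 0`, and let `b1 k g` be the minimal number of relations of its associated graded ring.
Besides the comparison with the interval completion: if `Γ` is not generated by an interval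
(`e < w`) then `b1 ≤ C(w,2) + 2`, and `b1 ≤ C(w,2) + 1` if `w` divides the multiplicity; moreover
`b1 ≤ C(e+1,2) + (w-e)(w-e+1)` if `w < 2e` and `32 b1 ≤ 16 e (w+1) + (4w - 3e)^2` if `w ≥ 2e`. -/
theorem result (k : Type) [Field k] (Γ : AddSubmonoid ℕ) (hΓ : ((Γ : Set ℕ)ᶜ).Finite)
    (e : ℕ) (g : Fin (e + 1) → ℕ) (hg : IsMinimalGenerators Γ g)
    (w : ℕ) (hw : w = g (Fin.last e) - g 0) :
    (∀ (e' : ℕ) (g' : Fin (e' + 1) → ℕ),
      IsMinimalGenerators (AddSubmonoid.closure (Set.Icc (g 0) (g (Fin.last e)))) g' →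
        b1 k g ≤ b1 k g') ∧
    (e < w → b1 k g ≤ w.choose 2 + 2 ∧ (w ∣ g 0 → b1 k g ≤ w.choose 2 + 1)) ∧
    (e < w → w < 2 * e → b1 k g ≤ (e + 1).choose 2 + (w - e) * (w - e + 1)) ∧
    (1 ≤ e → 2 * e ≤ w → 32 * b1 k g ≤ 16 * e * (w + 1) + (4 * w - 3 * e) ^ 2) := by
  subst hw
  have h0 : 0 < g 0 := pos_of hg 0
  have he1 : e < g (Fin.last e) - g 0 → 1 ≤ e := by
    intro h
    by_contra hcon
    have he0 : e = 0 := by omega
    subst he0
    have h3 : Fin.last 0 = 0 := rfl
    rw [h3] at h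
    omega
  have key : ∀ s : Finset (MvPolynomial (Fin (e + 1)) k),
      Ideal.span (s : Set (MvPolynomial (Fin (e + 1)) k)) =
        Ideal.span (Pool.Agent.Helper816.TCAlg.inGen k g) → b1 k g ≤ s.card := by
    intro s hs
    refine numGens_le _ s ?_
    rw [hs]
    exact (Pool.Agent.Helper816.HSWide.span_form k g).symm
  refine ⟨(IntervalCompletion.result k Γ hΓ e g hg).2, fun h => ?_, fun h h2 => ?_, fun h h2 => ?_⟩
  · obtain ⟨s, hs, hs1, hs2⟩ := Pool.Agent.KS6_36.IvlDefect.cone_le' k (he1 h) hg.strictMono h0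
      (by omega)
    exact ⟨(key s hs).trans hs1, fun hd => (key s hs).trans (hs2 hd)⟩
  · obtain ⟨s, hs, hs1, hs2⟩ := Pool.Agent.KS6_36.IvlDefect.cone_le k (he1 h) hg.strictMono h0
      (by omega)
    have h3 := key s hs
    have h4 := hs1 h2
    have h5 : 2 * (e + 1).choose 2 = (e + 1) * e := by
      have := Nat.add_one_mul_choose_eq e 1
      simp only [Nat.choose_one_right] at this
      linarith
    have h6 : (e + 1) * e = e * (e + 1) := Nat.mul_comm _ _
    omega
  · obtain ⟨s, hs, hs1, hs2⟩ := Pool.Agent.KS6_36.IvlDefect.cone_le k h hg.strictMono h0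
      (by omega)
    have h3 := key s hs
    have h4 := hs2 h2
    omega

end Pool.Agent.Results.MP_a2efaf_al.WidthOnly
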